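import Pool.Agent.V5helper43.NC.Stm

/-!
# Project NC, jobs INJ, CNT0, PAIRS
-/

set_option autoImplicit false

open Finset

namespace Pool.Agent.V5helper95.NC

open Pool.Agent.V5helper43.NC
open Pool.Agent.Y940.HB (d co d_add three_d_lt lt_of_d_lt exists_split split_unique co_split_unique
  co_pos co_true co_false)

variable {π : Par} (S : Sys π)

/-- every element of `P c i` has main digits `x < 2 ^ m i` -/
theorem P_digits (c : Bool) (i : ℕ) : ∀ p ∈ S.P c i, ∃ x y, x < 2 ^ π.m i ∧ y < 2 ^ π.m i ∧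
    p = co c * d x + co (!c) * d y := by
  induction i with
  | zero =>
    intro p hp
    rw [S.P0, mem_singleton] at hp
    subst hp
    refine ⟨0, 0, ?_, ?_, ?_⟩
    · positivity
    · positivity
    · simp [Pool.Agent.Y940.HB.d_zero]
  | succ i ih =>
    intro p hp
    obtain ⟨p₀, hp₀, t, ht, rfl⟩ := S.mem_P_succ.1 hp
    obtain ⟨x₀, y₀, hx, hy, h⟩ := ih p₀ hp₀
    have hv := S.hv c i p₀
    refine ⟨x₀ + 2 ^ π.m i * t, y₀ + 2 ^ π.m i * S.v c i p₀, ?_, ?_, ?_⟩
    · rw [π.m_succ, pow_add]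
      calc x₀ + 2 ^ π.m i * t < 2 ^ π.m i + 2 ^ π.m i * t := by omega
        _ = 2 ^ π.m i * (t + 1) := by ring
        _ ≤ 2 ^ π.m i * 2 ^ π.s i := Nat.mul_le_mul_left _ ht
    · rw [π.m_succ, pow_add]
      calc y₀ + 2 ^ π.m i * S.v c i p₀ < 2 ^ π.m i + 2 ^ π.m i * S.v c i p₀ := by omega
        _ = 2 ^ π.m i * (S.v c i p₀ + 1) := by ring
        _ ≤ 2 ^ π.m i * 2 ^ π.s i := Nat.mul_le_mul_left _ hv
    · rw [d_add _ _ _ hx, d_add _ _ _ hy]
      have h2 : p₀ + 4 ^ π.m i * (co c * d t + co (!c) * d (S.v c i p₀)) =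
          (co c * d x₀ + co (!c) * d y₀) + 4 ^ π.m i * (co c * d t + co (!c) * d (S.v c i p₀)) := by
        rw [← h]
      rw [h2]
      ring

theorem div_mod_unique {M x t x' t' : ℕ} (hx : x < M) (hx' : x' < M) (h : x + M * t = x' + M * t') :
    x = x' ∧ t = t' := by
  have h1 : (x + M * t) % M = x := by rw [Nat.add_mul_mod_self_left, Nat.mod_eq_of_lt hx]
  have h2 : (x' + M * t') % M = x' := by rw [Nat.add_mul_mod_self_left, Nat.mod_eq_of_lt hx']
  have h3 : x = x' := by rw [← h1, ← h2, h]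
  subst h3
  have h4 : M * t = M * t' := Nat.add_left_cancel h
  exact ⟨rfl, Nat.eq_of_mul_eq_mul_left (by omega) h4⟩

/-- the main digits determine the element of `P c i` -/
theorem P_inj (c : Bool) (i : ℕ) : ∀ p ∈ S.P c i, ∀ p' ∈ S.P c i, ∀ x y y',
    p = co c * d x + co (!c) * d y → p' = co c * d x + co (!c) * d y' → p = p' := by
  induction i with
  | zero =>
    intro p hp p' hp' x y y' _ _
    rw [S.P0, mem_singleton] at hp hp'
    rw [hp, hp']
  | succ i ih =>
    intro p hp p' hp' x y y' hx hx'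
    obtain ⟨q, hq, t, ht, rfl⟩ := S.mem_P_succ.1 hp
    obtain ⟨q', hq', t', ht', rfl⟩ := S.mem_P_succ.1 hp'
    obtain ⟨a, b, ha, hb, e⟩ := P_digits S c i q hq
    obtain ⟨a', b', ha', hb', e'⟩ := P_digits S c i q' hq'
    have h1 : co c * d (a + 2 ^ π.m i * t) + co (!c) * d (b + 2 ^ π.m i * S.v c i q) =
        co c * d x + co (!c) * d y := by
      rw [d_add _ _ _ ha, d_add _ _ _ hb, ← hx]
      conv_rhs => rw [e]
      have : S.v c i q = S.v c i (co c * d a + co (!c) * d b) := by rw [← e]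
      rw [this]
      ring
    have h1' : co c * d (a' + 2 ^ π.m i * t') + co (!c) * d (b' + 2 ^ π.m i * S.v c i q') =
        co c * d x + co (!c) * d y' := by
      rw [d_add _ _ _ ha', d_add _ _ _ hb', ← hx']
      conv_rhs => rw [e']
      have : S.v c i q' = S.v c i (co c * d a' + co (!c) * d b') := by rw [← e']
      rw [this]
      ring
    have h2 := (co_split_unique h1).1
    have h2' := (co_split_unique h1').1
    obtain ⟨rfl, rfl⟩ := div_mod_unique ha ha' (h2.trans h2'.symm)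
    have h3 := ih q hq q' hq' a b b' e e'
    subst h3
    rfl

/-- the exponent of the threshold -/
theorem e_mono {i j : ℕ} (h : i < j) : π.m (i + 1) + π.l (i + 1) ≤ π.m j + π.l j :=
  Nat.add_le_add (π.m_mono h) (π.mono h)

/-- the decomposition of an element of `A0 c` -/
theorem A0_digits {c : Bool} {a : ℕ} (ha : a ∈ S.A0 c) : ∃ (i p u x y : ℕ), p ∈ S.P c i ∧
    a = p + 4 ^ π.m i * (co c * d u) ∧ x < 2 ^ π.m i ∧ p = co c * d x + co (!c) * d y ∧
    a = co c * d (x + 2 ^ π.m i * u) + co (!c) * d y ∧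
    2 ^ (π.m i + π.l i) ≤ x + 2 ^ π.m i * u ∧
    x + 2 ^ π.m i * u < 2 ^ (π.m (i + 1) + π.l (i + 1)) := by
  obtain ⟨i, h1, h2, p, hp, u, rfl⟩ := ha
  obtain ⟨x, y, hx, hy, e⟩ := P_digits S c i p hp
  have hpM := S.P_lt c i hp
  refine ⟨i, p, u, x, y, hp, rfl, hx, e, ?_, ?_, ?_⟩
  · rw [d_add _ _ _ hx]
    conv_lhs => rw [e]
    ring
  · have h3 : 2 ^ π.l i ≤ u := by
      by_contra hcon
      push Not at hcon
      have h4 := three_d_lt _ _ hcon
      have h5 : co c * d u ≤ 2 * d u := Nat.mul_le_mul_right _ (by cases c <;> simp)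
      have h6 : co c * d u + 1 ≤ 4 ^ π.l i := by omega
      have h7 : p + 4 ^ π.m i * (co c * d u) < π.X i := by
        unfold Par.X
        rw [pow_add]
        calc p + 4 ^ π.m i * (co c * d u) < 4 ^ π.m i + 4 ^ π.m i * (co c * d u) := by omega
          _ = 4 ^ π.m i * (co c * d u + 1) := by ring
          _ ≤ 4 ^ π.m i * 4 ^ π.l i := Nat.mul_le_mul_left _ h6
      omega
    rw [pow_add]
    calc 2 ^ π.m i * 2 ^ π.l i ≤ 2 ^ π.m i * u := Nat.mul_le_mul_left _ h3
      _ ≤ x + 2 ^ π.m i * u := Nat.le_add_left _ _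
  · have h3 : u < 2 ^ (π.s i + π.l (i + 1)) := by
      apply lt_of_d_lt
      have h4 : 4 ^ π.m i * d u < 4 ^ π.m i * 4 ^ (π.s i + π.l (i + 1)) := by
        calc 4 ^ π.m i * d u ≤ 4 ^ π.m i * (co c * d u) := by
              apply Nat.mul_le_mul_left
              exact Nat.le_mul_of_pos_left _ (co_pos c)
          _ ≤ p + 4 ^ π.m i * (co c * d u) := Nat.le_add_left _ _
          _ < π.X (i + 1) := h2
          _ = 4 ^ π.m i * 4 ^ (π.s i + π.l (i + 1)) := by
              unfold Par.X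
              rw [π.m_succ, add_assoc, pow_add]
      exact Nat.lt_of_mul_lt_mul_left h4
    calc x + 2 ^ π.m i * u < 2 ^ π.m i + 2 ^ π.m i * u := by omega
      _ = 2 ^ π.m i * (u + 1) := by ring
      _ ≤ 2 ^ π.m i * 2 ^ (π.s i + π.l (i + 1)) := Nat.mul_le_mul_left _ h3
      _ = 2 ^ (π.m (i + 1) + π.l (i + 1)) := by
          rw [π.m_succ, add_assoc, pow_add 2 (π.m i)]

theorem t_INJ : S_INJ := by
  intro π S c a a' X y y' ha ha' h h'
  obtain ⟨i, p, u, x, w, hp, ea, hx, ep, e1, h1, h2⟩ := A0_digits S ha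
  obtain ⟨i', p', u', x', w', hp', ea', hx', ep', e1', h1', h2'⟩ := A0_digits S ha'
  have h3 : x + 2 ^ π.m i * u = X := (co_split_unique (e1.symm.trans h)).1
  have h3' : x' + 2 ^ π.m i' * u' = X := (co_split_unique (e1'.symm.trans h')).1
  have hii : i = i' := by
    rcases lt_trichotomy i i' with hlt | heq | hlt
    · have h4 := e_mono (π := π) hlt
      have h5 : 2 ^ (π.m (i + 1) + π.l (i + 1)) ≤ 2 ^ (π.m i' + π.l i') :=
        Nat.pow_le_pow_right (by norm_num) h4
      omega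
    · exact heq
    · have h4 := e_mono (π := π) hlt
      have h5 : 2 ^ (π.m (i' + 1) + π.l (i' + 1)) ≤ 2 ^ (π.m i + π.l i) :=
        Nat.pow_le_pow_right (by norm_num) h4
      omega
  subst hii
  obtain ⟨rfl, rfl⟩ := div_mod_unique hx hx' (h3.trans h3'.symm)
  have h6 := P_inj S c i p hp p' hp' x w w' ep ep'
  rw [ea, ea', h6]

/-- every number has main digits -/
theorem exists_co (c : Bool) (a : ℕ) : ∃ x y, a = co c * d x + co (!c) * d y := by
  obtain ⟨x, y, h⟩ := exists_split a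
  cases c
  · exact ⟨y, x, by simp only [co_false, Bool.not_false, co_true]; omega⟩
  · exact ⟨x, y, by simp only [co_false, Bool.not_true, co_true]; omega⟩

/-- the main digits -/
noncomputable def main (c : Bool) (a : ℕ) : ℕ := (exists_co c a).choose

theorem main_spec (c : Bool) (a : ℕ) : ∃ y, a = co c * d (main c a) + co (!c) * d y :=
  (exists_co c a).choose_spec

theorem main_inj (h : S_INJ) (c : Bool) : Set.InjOn (main c) (S.A0 c) := by
  intro a ha a' ha' hm
  obtain ⟨y, hy⟩ := main_spec c a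
  obtain ⟨y', hy'⟩ := main_spec c a'
  rw [← hm] at hy'
  exact h π S c a a' _ y y' ha ha' hy hy'

theorem d_main_le (c : Bool) (a : ℕ) : co c * d (main c a) ≤ a := by
  obtain ⟨y, hy⟩ := main_spec c a
  omega

theorem t_CNT0 (h : S_INJ) : S_CNT0 := by
  intro π S c k
  have h1 : {a | a ∈ S.A0 c ∧ a < 4 ^ k}.ncard ≤ (↑(range (2 ^ k)) : Set ℕ).ncard := by
    refine Set.ncard_le_ncard_of_injOn (main c) ?_ ?_ (range (2 ^ k)).finite_toSet
    · rintro a ⟨-, ha⟩
      rw [coe_range, Set.mem_Iio]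
      apply lt_of_d_lt
      have h2 := d_main_le c a
      have h3 : d (main c a) ≤ co c * d (main c a) := Nat.le_mul_of_pos_left _ (co_pos c)
      omega
    · exact (main_inj S h c).mono fun a ha => ha.1
  rw [Set.ncard_coe_finset, card_range] at h1
  exact h1

theorem t_PAIRS (h : S_INJ) : S_PAIRS := by
  intro π S N
  have h1 : {p : ℕ × ℕ | p.1 ∈ S.A0 true ∧ p.2 ∈ S.A0 false ∧ p.1 + p.2 < N}.ncard ≤
      (↑(range N) : Set ℕ).ncard := by
    refine Set.ncard_le_ncard_of_injOn (fun p => d (main true p.1) + 2 * d (main false p.2))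
      ?_ ?_ (range N).finite_toSet
    · rintro ⟨a, b⟩ ⟨-, -, hab⟩
      rw [coe_range, Set.mem_Iio]
      have h2 := d_main_le true a
      have h3 := d_main_le false b
      simp only [co_true, co_false] at h2 h3
      simp only at hab ⊢
      omega
    · rintro ⟨a, b⟩ ⟨ha, hb, -⟩ ⟨a', b'⟩ ⟨ha', hb', -⟩ heq
      simp only at heq
      obtain ⟨e1, e2⟩ := split_unique heq
      exact Prod.ext (main_inj S h true ha ha' e1) (main_inj S h false hb hb' e2)
  rw [Set.ncard_coe_finset, card_range] at h1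
  exact h1

end Pool.Agent.V5helper95.NC
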